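import Pool.Agent.Helper87.HQ.St

/-!
# Project HQ, module A1
-/

set_option autoImplicit false

namespace Pool.Agent.Helper6.HQ

open Pool.Agent.Helper87.HQ MvPolynomial Set

/-- The real zero set of a set of polynomials. -/
def Zs {σ : Type} (S : Set (MvPolynomial σ ℝ)) : Set (σ → ℝ) := {z | ∀ p ∈ S, eval z p = 0}

/-- The ideal of all polynomials which vanish on a set. -/
def VI {σ : Type} (X : Set (σ → ℝ)) : Ideal (MvPolynomial σ ℝ) where
  carrier := {p | ∀ z ∈ X, eval z p = 0}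
  zero_mem' := fun z _ => by simp
  add_mem' := by
    intro a b ha hb z hz
    have h1 := ha z hz
    have h2 := hb z hz
    simp only [map_add, h1, h2, add_zero]
  smul_mem' := by
    intro c x hx z hz
    have h1 := hx z hz
    simp only [smul_eq_mul, map_mul, h1, mul_zero]

theorem mem_VI {σ : Type} {X : Set (σ → ℝ)} {p : MvPolynomial σ ℝ} : p ∈ VI X ↔ ∀ z ∈ X, eval z p = 0 :=
  Iff.rfl

theorem sub_Zs_VI {σ : Type} (X : Set (σ → ℝ)) : X ⊆ Zs (VI X : Set (MvPolynomial σ ℝ)) :=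
  fun z hz p hp => (mem_VI.1 hp) z hz

theorem closed_VI {σ : Type} (X : Set (σ → ℝ)) (g : MvPolynomial σ ℝ)
    (hg : ∀ z : σ → ℝ, (∀ p ∈ VI X, eval z p = 0) → eval z g = 0) : g ∈ VI X :=
  mem_VI.2 fun z hz => hg z fun p hp => (mem_VI.1 hp) z hz

theorem Img_inf_of_image {σ : Type} (X : Set (σ → ℝ)) (f : MvPolynomial σ ℝ)
    (h : ((fun z => eval z f) '' X).Infinite) : (Img (VI X : Set (MvPolynomial σ ℝ)) f).Infinite := by
  refine h.mono ?_
  rintro t ⟨z, hz, rfl⟩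
  exact ⟨z, fun p hp => sub_Zs_VI X hz p hp, rfl⟩

theorem hA1 : StA1 := by
  intro σ _ S f hinf
  classical
  let A : Set (Ideal (MvPolynomial σ ℝ)) := {I | (∀ p ∈ S, p ∈ I) ∧
    (∀ g, (∀ z : σ → ℝ, (∀ p ∈ I, eval z p = 0) → eval z g = 0) → g ∈ I) ∧
    (Img (I : Set (MvPolynomial σ ℝ)) f).Infinite}
  have hA : A.Nonempty := by
    refine ⟨VI (Zs S), ?_, closed_VI _, ?_⟩
    · intro p hp
      exact mem_VI.2 fun z hz => hz p hp
    · refine Img_inf_of_image _ _ (hinf.mono ?_)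
      rintro t ⟨z, hz, rfl⟩
      exact ⟨z, hz, rfl⟩
  obtain ⟨P, hP, hmax⟩ := set_has_maximal_iff_noetherian.2 (inferInstance : IsNoetherian (MvPolynomial σ ℝ) (MvPolynomial σ ℝ)) A hA
  obtain ⟨hPS, hPc, hPi⟩ := hP
  refine ⟨P, ?_, hPS, hPc, hPi⟩
  have key : ∀ a b : MvPolynomial σ ℝ,
      ((fun z => eval z f) '' {z : σ → ℝ | (∀ p ∈ P, eval z p = 0) ∧ eval z a = 0}).Infinite → a ∈ P := by
    intro a _ h
    set X : Set (σ → ℝ) := {z : σ → ℝ | (∀ p ∈ P, eval z p = 0) ∧ eval z a = 0} with hX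
    have hle : P ≤ VI X := fun p hp => mem_VI.2 fun z hz => hz.1 p hp
    have hJ : VI X ∈ A := ⟨fun p hp => hle (hPS p hp), closed_VI _, Img_inf_of_image _ _ h⟩
    have hna : ¬ P < VI X := hmax _ hJ
    have heq : P = VI X := by
      by_contra hne
      exact hna (lt_of_le_of_ne hle hne)
    rw [heq]
    exact mem_VI.2 fun z hz => hz.2
  refine Ideal.isPrime_iff.2 ⟨?_, ?_⟩
  · intro htop
    obtain ⟨t, z, hz, -⟩ := hPi.nonempty
    have h1 : (1 : MvPolynomial σ ℝ) ∈ P := by rw [htop]; exact Submodule.mem_top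
    have := hz 1 h1
    simp at this
  · intro a b hab
    by_cases ha : ((fun z => eval z f) '' {z : σ → ℝ | (∀ p ∈ P, eval z p = 0) ∧ eval z a = 0}).Infinite
    · exact Or.inl (key a b ha)
    · by_cases hb : ((fun z => eval z f) '' {z : σ → ℝ | (∀ p ∈ P, eval z p = 0) ∧ eval z b = 0}).Infinite
      · exact Or.inr (key b a hb)
      · exfalso
        rw [Set.not_infinite] at ha hb
        refine hPi ((ha.union hb).subset ?_)
        rintro t ⟨z, hz, rfl⟩
        have hz' : eval z a * eval z b = 0 := by rw [← map_mul]; exact hz _ hab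
        rcases mul_eq_zero.1 hz' with h | h
        · exact Or.inl ⟨z, ⟨fun p hp => hz p hp, h⟩, rfl⟩
        · exact Or.inr ⟨z, ⟨fun p hp => hz p hp, h⟩, rfl⟩

end Pool.Agent.Helper6.HQ
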